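import Pool.Agent.H928R3.Core

/-!
Soundness of the kernel-friendly checker.
-/

namespace Pool.Agent.H928R3

/-! ### Number theory -/

theorem primRoot_of_orderOf {p : ℕ} [Fact p.Prime] {g : ℤ} (hg : (g : ZMod p) ≠ 0)
    (h : orderOf (g : ZMod p) = p - 1) : IsPrimRoot g p := by
  refine ⟨Units.mk0 (g : ZMod p) hg, rfl, ?_⟩
  intro v
  have h1 : orderOf (Units.mk0 (g : ZMod p) hg) = Nat.card (ZMod p)ˣ := by
    rw [← orderOf_units, Units.val_mk0, h, Nat.card_eq_fintype_card, ZMod.card_units]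
  have h2 : Subgroup.zpowers (Units.mk0 (g : ZMod p) hg) = ⊤ :=
    Subgroup.eq_top_of_card_eq _ (by rw [Nat.card_zpowers]; exact h1)
  rw [h2]
  exact Subgroup.mem_top v

theorem not_primRoot_of_pow {p : ℕ} (hp : p.Prime) {g : ℤ} {d : ℕ} (hd : 0 < d)
    (hd' : d < p - 1) (h : (g : ZMod p) ^ d = 1) : ¬ IsPrimRoot g p := by
  have : Fact p.Prime := ⟨hp⟩
  rintro ⟨u, hu, hgen⟩
  have h1 : orderOf u = Nat.card (ZMod p)ˣ := orderOf_eq_card_of_forall_mem_zpowers hgen
  rw [Nat.card_eq_fintype_card, ZMod.card_units] at h1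
  have h2 : u ^ d = 1 := by
    ext
    rw [Units.val_pow_eq_pow_val, hu, h, Units.val_one]
  have h3 := orderOf_dvd_of_pow_eq_one h2
  rw [h1] at h3
  exact absurd (Nat.le_of_dvd hd h3) (by omega)

theorem not_isSquare_neg_three {p : ℕ} [Fact p.Prime] (h6 : p % 6 = 5) :
    ¬ IsSquare (-3 : ZMod p) := by
  have hp : p.Prime := Fact.out
  rintro ⟨s, hs⟩
  have h2 : (2 : ZMod p) ≠ 0 := by
    intro h
    have : ((2 : ℕ) : ZMod p) = 0 := by exact_mod_cast h
    have := (ZMod.natCast_eq_zero_iff _ _).1 this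
    have := Nat.le_of_dvd (by norm_num) this
    have := hp.two_le
    omega
  have h3 : (3 : ZMod p) ≠ 0 := by
    intro h
    have : ((3 : ℕ) : ZMod p) = 0 := by exact_mod_cast h
    have := (ZMod.natCast_eq_zero_iff _ _).1 this
    have := Nat.le_of_dvd (by norm_num) this
    have := hp.two_le
    omega
  -- w = (s - 1) / 2 has order three
  have hw3 : ((s - 1) / 2) ^ 3 = (1 : ZMod p) := by
    have : (s - 1) ^ 3 = 8 := by
      linear_combination (-s + 3) * hs
    rw [div_pow, this]
    rw [div_eq_one_iff_eq (pow_ne_zero 3 h2)]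
    norm_num
  have hw1 : ((s - 1) / 2) ≠ (1 : ZMod p) := by
    intro h
    rw [div_eq_one_iff_eq h2] at h
    have h4 : s = 3 := by linear_combination h
    rw [h4] at hs
    have h5 : (2 : ZMod p) * 2 * 3 = 0 := by linear_combination -hs
    rcases mul_eq_zero.1 h5 with h6 | h6
    · rcases mul_eq_zero.1 h6 with h7 | h7 <;> exact h2 h7
    · exact h3 h6
  have ho : orderOf ((s - 1) / 2 : ZMod p) = 3 :=
    orderOf_eq_prime hw3 hw1
  have hne : ((s - 1) / 2 : ZMod p) ≠ 0 := by
    intro h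
    rw [h] at hw3
    norm_num at hw3
  have hd := ZMod.orderOf_dvd_card_sub_one hne
  rw [ho] at hd
  omega

theorem neg_pow_even {p : ℕ} (b d : ℕ) (hd : d % 2 = 0) (h : b ^ d % p = 1 % p) :
    ((-(b : ℤ) : ℤ) : ZMod p) ^ d = 1 := by
  push_cast
  rw [(Nat.even_iff.2 hd).neg_pow]
  have h1 : ((b ^ d : ℕ) : ZMod p) = ((1 : ℕ) : ZMod p) :=
    (ZMod.natCast_eq_natCast_iff _ _ _).2 h
  exact_mod_cast h1

/-- The mathematical criterion behind the checker. -/
theorem good_of {p : ℕ} (hp : p.Prime) (h6 : p % 6 = 5)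
    (hq : ∀ q, q.Prime → q ∣ p - 1 → q = 2 ∨ 3 ^ ((p - 1) / q) % p ≠ 1)
    (h2 : p % 8 = 1 ∨ p % 8 = 3 ∨ ∃ d, 0 < d ∧ d < p - 1 ∧ d % 2 = 0 ∧ 2 ^ d % p = 1) :
    p ∈ primesOf (-3) := by
  have : Fact p.Prime := ⟨hp⟩
  have hp5 : 5 ≤ p := by omega
  have hcast : (((-3 : ℤ)) : ZMod p) = -3 := by push_cast; ring
  have hne : ((-3 : ℤ) : ZMod p) ≠ 0 := by
    rw [hcast]
    intro h
    have h3 : ((3 : ℕ) : ZMod p) = 0 := by
      have : (3 : ZMod p) = 0 := by linear_combination -h
      exact_mod_cast this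
    have := (ZMod.natCast_eq_zero_iff _ _).1 h3
    have := Nat.le_of_dvd (by norm_num) this
    omega
  refine ⟨hp, by norm_num, ?_, ?_⟩
  · apply primRoot_of_orderOf hne
    apply orderOf_eq_of_pow_and_pow_div_prime (by omega)
    · exact ZMod.pow_card_sub_one_eq_one hne
    · intro q hqp hqd
      rcases hq q hqp hqd with h | h
      · subst h
        intro h1
        apply not_isSquare_neg_three (p := p) h6
        rw [← hcast]
        rw [ZMod.euler_criterion p hne]
        have : p / 2 = (p - 1) / 2 := by omega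
        rw [this]
        exact h1
      · intro h1
        apply h
        by_cases hq2 : q = 2
        · exfalso
          subst hq2
          apply not_isSquare_neg_three (p := p) h6
          rw [← hcast]
          rw [ZMod.euler_criterion p hne]
          have : p / 2 = (p - 1) / 2 := by omega
          rw [this]
          exact h1
        · have hodd : ((p - 1) / q) % 2 = 0 := by
            obtain ⟨c, hc⟩ := hqd
            have hqo : q % 2 = 1 := by
              rcases hqp.eq_two_or_odd with h' | h'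
              · exact absurd h' hq2
              · exact h'
            rw [hc, Nat.mul_div_cancel_left _ hqp.pos]
            have h10 : (q * c) % 2 = 0 := by rw [← hc]; omega
            rw [Nat.mul_mod, hqo] at h10
            omega
          have h11 : ((3 ^ ((p - 1) / q) : ℕ) : ZMod p) = ((1 : ℕ) : ZMod p) := by
            rw [hcast, (Nat.even_iff.2 hodd).neg_pow] at h1
            exact_mod_cast h1
          have h12 := (ZMod.natCast_eq_natCast_iff _ _ _).1 h11
          have h13 : 3 ^ ((p - 1) / q) % p = 1 % p := h12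
          rw [h13]
          exact Nat.mod_eq_of_lt (by omega)
  · intro b hb1 hb2
    have hb : b = -2 ∨ b = -1 := by omega
    rcases hb with rfl | rfl
    · rcases h2 with h8 | h8 | ⟨d, hd0, hd1, hd2, hd3⟩
      · have hsq : IsSquare (-2 : ZMod p) :=
          (ZMod.exists_sq_eq_neg_two_iff (by omega)).2 (Or.inl h8)
        have hne2 : (-2 : ZMod p) ≠ 0 := by
          intro h
          have h3 : ((2 : ℕ) : ZMod p) = 0 := by
            have : (2 : ZMod p) = 0 := by linear_combination -h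
            exact_mod_cast this
          have := (ZMod.natCast_eq_zero_iff _ _).1 h3
          have := Nat.le_of_dvd (by norm_num) this
          omega
        have := (ZMod.euler_criterion p hne2).1 hsq
        apply not_primRoot_of_pow hp (d := p / 2) (by omega) (by omega)
        push_cast
        exact this
      · have hsq : IsSquare (-2 : ZMod p) :=
          (ZMod.exists_sq_eq_neg_two_iff (by omega)).2 (Or.inr h8)
        have hne2 : (-2 : ZMod p) ≠ 0 := by
          intro h
          have h3 : ((2 : ℕ) : ZMod p) = 0 := by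
            have : (2 : ZMod p) = 0 := by linear_combination -h
            exact_mod_cast this
          have := (ZMod.natCast_eq_zero_iff _ _).1 h3
          have := Nat.le_of_dvd (by norm_num) this
          omega
        have := (ZMod.euler_criterion p hne2).1 hsq
        apply not_primRoot_of_pow hp (d := p / 2) (by omega) (by omega)
        push_cast
        exact this
      · apply not_primRoot_of_pow hp (d := d) hd0 hd1
        have := neg_pow_even (p := p) 2 d hd2 (by rw [hd3, Nat.mod_eq_of_lt (by omega)])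
        exact_mod_cast this
    · apply not_primRoot_of_pow hp (d := 2) (by norm_num) (by omega)
      push_cast
      norm_num

/-! ### The checker -/

/-- Test that `2 ^ d = 1` modulo `p` with `0 < d < e` even. -/
def tB (d p e : ℕ) : Bool :=
  and (Nat.ble 1 d) (and (Nat.ble (Nat.succ d) e) (and (Nat.beq (Nat.mod d 2) 0)
    (Nat.beq (pm 2 d p) 1)))

/-- Read `c` hints from `N`. -/
noncomputable def hints (p e c : ℕ) : ℕ → ℕ → Bool → (ℕ → ℕ → Bool → Bool) → Bool :=
  Nat.rec (motive := fun _ => ℕ → ℕ → Bool → (ℕ → ℕ → Bool → Bool) → Bool)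
    (fun N R f k => k N R f)
    (fun _ ih N R f k =>
      and (isPB (Nat.mod N 8192))
        (and (not (Nat.beq (pm 3 (Nat.div e (Nat.mod N 8192)) p) 1))
          (ih (Nat.div N 8192) (Nat.mul R (Nat.mod N 8192))
            (or f (tB (Nat.div e (Nat.mod N 8192)) p e)) k))) c

/-- Final test, with `m` the part of `e = p - 1` prime to `R`. -/
def finish1 (p e m : ℕ) (f : Bool) : Bool :=
  and (or (Nat.beq m 1) (and (Nat.beq (Nat.gcd m big) 1)
      (not (Nat.beq (pm 3 (Nat.div e m) p) 1))))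
    (or (Nat.beq (Nat.mod p 8) 1) (or (Nat.beq (Nat.mod p 8) 3) (or f (tB (Nat.div e m) p e))))

/-- Final test. -/
def finish (p e R : ℕ) (f : Bool) : Bool :=
  finish1 p e (Nat.div e (Nat.gcd e (Nat.pow R 25))) f

/-- Test one prime `p`, the remaining data being `c`, `N`. -/
noncomputable def entry1 (p c N : ℕ) (k : ℕ → Bool) : Bool :=
  and (Nat.beq (Nat.gcd p big) 1) (and (Nat.ble p 51460433)
    (hints p (Nat.sub p 1) c N 2 false (fun N' R f => and (finish p (Nat.sub p 1) R f) (k N'))))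

/-- Test one entry: the prime is `p + 6 * (N % 256)`. -/
noncomputable def entry (p N : ℕ) (k : ℕ → ℕ → Bool) : Bool :=
  and (Nat.ble 1 (Nat.mod N 256))
    (entry1 (Nat.add p (Nat.mul 6 (Nat.mod N 256))) (Nat.mod (Nat.div N 256) 8) (Nat.div N 2048)
      (fun N' => k N' (Nat.add p (Nat.mul 6 (Nat.mod N 256)))))

/-- Test `n` entries. -/
noncomputable def loop (n : ℕ) : ℕ → ℕ → (ℕ → Bool) → Bool :=
  Nat.rec (motive := fun _ => ℕ → ℕ → (ℕ → Bool) → Bool)
    (fun _ p k => k p)
    (fun _ ih N p k => entry p N (fun N' p' => ih N' p' k)) n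

/-- Test a list of blocks of 32 entries. -/
noncomputable def chkAll (l : List ℕ) : ℕ → ℕ → Bool :=
  List.rec (motive := fun _ => ℕ → ℕ → Bool)
    (fun p pend => Nat.beq p pend)
    (fun N _ ih p pend => loop 32 N p (fun p' => ih p' pend)) l

/-! ### Soundness -/

/-- Invariant of the loop over the hints. -/
def Inv (p e R : ℕ) (f : Bool) : Prop :=
  (∀ q, q.Prime → q ∣ R → q = 2 ∨ 3 ^ (e / q) % p ≠ 1) ∧
  (f = true → ∃ d, 0 < d ∧ d < e ∧ d % 2 = 0 ∧ 2 ^ d % p = 1)

theorem tB_spec {d p e : ℕ} (h : tB d p e = true) :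
    ∃ d, 0 < d ∧ d < e ∧ d % 2 = 0 ∧ 2 ^ d % p = 1 := by
  unfold tB at h
  simp only [Bool.and_eq_true] at h
  obtain ⟨h1, h2, h3, h4⟩ := h
  have h1 := Nat.le_of_ble_eq_true h1
  have h2 := Nat.le_of_ble_eq_true h2
  have h3 : d % 2 = 0 := Nat.eq_of_beq_eq_true h3
  have h4 := Nat.eq_of_beq_eq_true h4
  rw [pm_eq] at h4
  exact ⟨d, h1, h2, h3, h4⟩

theorem hints_spec {p e c : ℕ} : ∀ {N R : ℕ} {f : Bool} {k : ℕ → ℕ → Bool → Bool},
    hints p e c N R f k = true → Inv p e R f →
    ∃ N' R' f', Inv p e R' f' ∧ k N' R' f' = true := by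
  induction c with
  | zero => intro N R f k h hI; exact ⟨N, R, f, hI, h⟩
  | succ c ih =>
    intro N R f k h hI
    have h' : and (isPB (Nat.mod N 8192))
        (and (not (Nat.beq (pm 3 (Nat.div e (Nat.mod N 8192)) p) 1))
          (hints p e c (Nat.div N 8192) (Nat.mul R (Nat.mod N 8192))
            (or f (tB (Nat.div e (Nat.mod N 8192)) p e)) k)) = true := h
    simp only [Bool.and_eq_true, Bool.not_eq_true'] at h'
    obtain ⟨h1, h2, h3⟩ := h'
    apply ih h3
    have hl : (Nat.mod N 8192).Prime := isPB_prime (Nat.mod_lt _ (by norm_num)) h1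
    constructor
    · intro q hq hqd
      rcases (Nat.Prime.dvd_mul hq).1 hqd with h4 | h4
      · exact hI.1 q hq h4
      · right
        have h5 : q = Nat.mod N 8192 := (Nat.prime_dvd_prime_iff_eq hq hl).1 h4
        rw [h5]
        have h6 := Nat.ne_of_beq_eq_false h2
        rw [pm_eq] at h6
        exact h6
    · intro hf
      rw [Bool.or_eq_true] at hf
      rcases hf with hf | hf
      · exact hI.2 hf
      · exact tB_spec hf

theorem finish_spec {p R : ℕ} {f : Bool} (hp : p.Prime) (h6 : p % 6 = 5)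
    (hpb : p ≤ 51460433) (hI : Inv p (p - 1) R f) (h : finish p (p - 1) R f = true) :
    p ∈ primesOf (-3) := by
  unfold finish finish1 at h
  obtain ⟨m, hm⟩ : ∃ m, m = Nat.div (p - 1) (Nat.gcd (p - 1) (Nat.pow R 25)) := ⟨_, rfl⟩
  rw [← hm] at h
  simp only [Bool.and_eq_true, Bool.or_eq_true, Bool.not_eq_true'] at h
  obtain ⟨h1, h2⟩ := h
  have he : 0 < p - 1 := by have := hp.two_le; omega
  have hgd : Nat.gcd (p - 1) (Nat.pow R 25) ∣ p - 1 := Nat.gcd_dvd_left _ _
  have hem : p - 1 = Nat.gcd (p - 1) (Nat.pow R 25) * m := by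
    rw [hm]; exact (Nat.mul_div_cancel' hgd).symm
  have hm0 : 0 < m := by
    rcases Nat.eq_zero_or_pos m with h0 | h0
    · rw [h0] at hem; omega
    · exact h0
  apply good_of hp h6
  · intro q hq hqd
    by_cases hqR : q ∣ R
    · exact hI.1 q hq hqR
    · have hcop : Nat.Coprime q (Nat.gcd (p - 1) (Nat.pow R 25)) := by
        rw [Nat.Prime.coprime_iff_not_dvd hq]
        intro h3
        have h4 : q ∣ R ^ 25 := dvd_trans h3 (Nat.gcd_dvd_right _ _)
        exact hqR (hq.dvd_of_dvd_pow h4)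
      have hqm : q ∣ m := by
        rw [hem] at hqd
        exact hcop.dvd_of_dvd_mul_left hqd
      rcases h1 with h1 | ⟨h1, h3⟩
      · have h1 := Nat.eq_of_beq_eq_true h1
        rw [h1] at hqm
        exact absurd (Nat.dvd_one.1 hqm) hq.one_lt.ne'
      · have h1 := Nat.eq_of_beq_eq_true h1
        have hmle : m ≤ p - 1 := Nat.le_of_dvd he (Dvd.intro_left _ hem.symm)
        have hm1 : 1 < m := by
          rcases Nat.lt_or_ge 1 m with h5 | h5
          · exact h5
          · have : m = 1 := by omega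
            rw [this] at hqm
            exact absurd (Nat.dvd_one.1 hqm) hq.one_lt.ne'
        have hmp : m.Prime := prime_of_gcd_big hm1 (by omega) h1
        have hqe : q = m := (Nat.prime_dvd_prime_iff_eq hq hmp).1 hqm
        right
        rw [hqe]
        have h6 := Nat.ne_of_beq_eq_false h3
        rw [pm_eq] at h6
        exact h6
  · rcases h2 with h2 | h2 | h2 | h2
    · exact Or.inl (Nat.eq_of_beq_eq_true h2)
    · exact Or.inr (Or.inl (Nat.eq_of_beq_eq_true h2))
    · exact Or.inr (Or.inr (hI.2 h2))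
    · exact Or.inr (Or.inr (tB_spec h2))

theorem entry1_spec {p c N : ℕ} {k : ℕ → Bool} (h6 : p % 6 = 5)
    (h : entry1 p c N k = true) : p ∈ primesOf (-3) ∧ p ≤ 51460433 ∧ ∃ N', k N' = true := by
  unfold entry1 at h
  simp only [Bool.and_eq_true] at h
  obtain ⟨h1, h2, h3⟩ := h
  have h1 := Nat.eq_of_beq_eq_true h1
  have h2 := Nat.le_of_ble_eq_true h2
  have hp : p.Prime := prime_of_gcd_big (by omega) (by omega) h1
  obtain ⟨N', R', f', hI, hk⟩ := hints_spec h3 (by
    constructor
    · intro q hq hqd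
      exact Or.inl ((Nat.prime_dvd_prime_iff_eq hq Nat.prime_two).1 hqd)
    · intro h; exact absurd h (by simp))
  rw [Bool.and_eq_true] at hk
  exact ⟨finish_spec hp h6 h2 hI hk.1, h2, N', hk.2⟩

theorem entry_spec {p N : ℕ} {k : ℕ → ℕ → Bool} (h6 : p % 6 = 5) (h : entry p N k = true) :
    ∃ N' p', p < p' ∧ p' % 6 = 5 ∧ p' ∈ primesOf (-3) ∧ p' ≤ 51460433 ∧ k N' p' = true := by
  unfold entry at h
  rw [Bool.and_eq_true] at h
  obtain ⟨h1, h2⟩ := h
  have h1 := Nat.le_of_ble_eq_true h1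
  have h7 : (Nat.add p (Nat.mul 6 (Nat.mod N 256))) % 6 = 5 := by
    have : Nat.add p (Nat.mul 6 (Nat.mod N 256)) = p + 6 * (Nat.mod N 256) := rfl
    rw [this]; omega
  obtain ⟨h3, h4, N', h5⟩ := entry1_spec h7 h2
  refine ⟨N', _, ?_, h7, h3, h4, h5⟩
  have : Nat.add p (Nat.mul 6 (Nat.mod N 256)) = p + 6 * (Nat.mod N 256) := rfl
  rw [this]; omega

theorem ncard_step {S : Set ℕ} {p p' q n : ℕ} (h1 : p < p') (h2 : p' ≤ q) (h3 : p' ∈ S)
    (h4 : n ≤ (S ∩ Set.Ioc p' q).ncard) : n + 1 ≤ (S ∩ Set.Ioc p q).ncard := by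
  have hfin : (S ∩ Set.Ioc p q).Finite := (Set.finite_Ioc p q).subset Set.inter_subset_right
  have hfin' : (S ∩ Set.Ioc p' q).Finite := (Set.finite_Ioc p' q).subset Set.inter_subset_right
  have hnot : p' ∉ S ∩ Set.Ioc p' q := fun h => lt_irrefl _ h.2.1
  have hsub : insert p' (S ∩ Set.Ioc p' q) ⊆ S ∩ Set.Ioc p q := by
    intro x hx
    rcases hx with rfl | hx
    · exact ⟨h3, h1, h2⟩
    · exact ⟨hx.1, lt_trans h1 hx.2.1, hx.2.2⟩
  have := Set.ncard_le_ncard hsub hfin
  rw [Set.ncard_insert_of_notMem hnot hfin'] at this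
  omega

theorem ncard_add {S : Set ℕ} {p q r a b : ℕ} (h1 : p ≤ q) (h2 : q ≤ r)
    (ha : a ≤ (S ∩ Set.Ioc p q).ncard) (hb : b ≤ (S ∩ Set.Ioc q r).ncard) :
    a + b ≤ (S ∩ Set.Ioc p r).ncard := by
  have hfin1 : (S ∩ Set.Ioc p q).Finite := (Set.finite_Ioc p q).subset Set.inter_subset_right
  have hfin2 : (S ∩ Set.Ioc q r).Finite := (Set.finite_Ioc q r).subset Set.inter_subset_right
  have hdisj : Disjoint (S ∩ Set.Ioc p q) (S ∩ Set.Ioc q r) := by
    rw [Set.disjoint_left]
    intro x hx hy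
    exact absurd hx.2.2 (not_le.2 hy.2.1)
  have hu : (S ∩ Set.Ioc p q) ∪ (S ∩ Set.Ioc q r) = S ∩ Set.Ioc p r := by
    rw [← Set.inter_union_distrib_left, Set.Ioc_union_Ioc_eq_Ioc h1 h2]
  have := Set.ncard_union_eq hdisj hfin1 hfin2
  rw [hu] at this
  omega

theorem loop_spec {n : ℕ} : ∀ {N p : ℕ} {k : ℕ → Bool}, p % 6 = 5 → loop n N p k = true →
    ∃ q, p ≤ q ∧ q % 6 = 5 ∧ k q = true ∧ n ≤ (primesOf (-3) ∩ Set.Ioc p q).ncard := by
  induction n with
  | zero => intro N p k h6 h; exact ⟨p, le_rfl, h6, h, Nat.zero_le _⟩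
  | succ n ih =>
    intro N p k h6 h
    have h' : entry p N (fun N' p' => loop n N' p' k) = true := h
    obtain ⟨N', p', h1, h2, h3, _, h5⟩ := entry_spec h6 h'
    obtain ⟨q, hq1, hq2, hq3, hq4⟩ := ih h2 h5
    exact ⟨q, by omega, hq2, hq3, ncard_step h1 hq1 h3 hq4⟩

/-- The conclusion drawn from a verified list of blocks. -/
structure Seg (p q n : ℕ) : Prop where
  le : p ≤ q
  mod : q % 6 = 5
  card : n ≤ (primesOf (-3) ∩ Set.Ioc p q).ncard

theorem chkAll_spec {l : List ℕ} : ∀ {p q : ℕ}, p % 6 = 5 → chkAll l p q = true →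
    Seg p q (32 * l.length) := by
  induction l with
  | nil =>
    intro p q h6 h
    have h' : p = q := Nat.eq_of_beq_eq_true h
    subst h'
    exact ⟨le_rfl, h6, by simp⟩
  | cons N l ih =>
    intro p q h6 h
    have h' : loop 32 N p (fun p' => chkAll l p' q) = true := h
    obtain ⟨r, h1, h2, h3, h4⟩ := loop_spec h6 h'
    obtain ⟨h5, h6, h7⟩ := ih h2 h3
    refine ⟨by omega, h6, ?_⟩
    have := ncard_add h1 h5 h4 h7
    simp only [List.length_cons]
    omega

theorem Seg.trans {p q r a b : ℕ} (h1 : Seg p q a) (h2 : Seg q r b) : Seg p r (a + b) :=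
  ⟨h1.le.trans h2.le, h2.mod, ncard_add h1.le h2.le h1.card h2.card⟩

end Pool.Agent.H928R3
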