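import Mathlib.Data.ZMod.Basic
import Mathlib.Data.Nat.Prime.Basic
import Mathlib.Data.Set.Card
import Mathlib.Algebra.Group.Subgroup.ZPowers.Basic

/-!
Definitions for primes with a prescribed largest negative primitive root.
-/

namespace Pool.Agent.H928R3

/-- The integer `a` is a perfect power: `a = x ^ m` for some integers `x` and `m > 1`. -/
def IsPerfectPower (a : ℤ) : Prop := ∃ x : ℤ, ∃ m : ℕ, 1 < m ∧ a = x ^ m

/-- The integer `g` is a primitive root modulo `p`: its residue class is a unit that generates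
the group of units of `ZMod p`. -/
def IsPrimRoot (g : ℤ) (p : ℕ) : Prop :=
  ∃ u : (ZMod p)ˣ, (u : ZMod p) = (g : ZMod p) ∧ ∀ v : (ZMod p)ˣ, v ∈ Subgroup.zpowers u

/-- `a` is the largest negative primitive root modulo `p`. -/
def IsLargestNegPrimRoot (a : ℤ) (p : ℕ) : Prop :=
  a < 0 ∧ IsPrimRoot a p ∧ ∀ b : ℤ, a < b → b < 0 → ¬ IsPrimRoot b p

/-- The set of primes `p` for which `a` is the largest negative primitive root modulo `p`. -/
def primesOf (a : ℤ) : Set ℕ := {p | p.Prime ∧ IsLargestNegPrimRoot a p}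

/-- `p` is the `n`-th smallest element (counted from `1`) of the set `S` of natural numbers. -/
def IsNth (S : Set ℕ) (n p : ℕ) : Prop := p ∈ S ∧ (S ∩ Set.Iic p).ncard = n

end Pool.Agent.H928R3
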