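import Pool.Agent.H928R3.Check

/-!
No prime strictly between `51459203` and `51460433` has `-3` as its largest negative primitive
root.
-/

namespace Pool.Agent.H928R3

theorem orderOf_of_isPrimRoot {p : ℕ} (hp : p.Prime) {g : ℤ} (h : IsPrimRoot g p) :
    orderOf (g : ZMod p) = p - 1 := by
  have : Fact p.Prime := ⟨hp⟩
  obtain ⟨u, hu, hgen⟩ := h
  have h1 : orderOf u = Nat.card (ZMod p)ˣ := orderOf_eq_card_of_forall_mem_zpowers hgen
  rw [Nat.card_eq_fintype_card, ZMod.card_units] at h1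
  rw [← hu, orderOf_units, h1]

theorem mod6_of_mem {p : ℕ} (h : p ∈ primesOf (-3)) (h5 : 5 ≤ p) : p % 6 = 5 := by
  obtain ⟨hp, -, hroot, -⟩ := h
  have : Fact p.Prime := ⟨hp⟩
  have ho := orderOf_of_isPrimRoot hp hroot
  have h2 : p % 2 = 1 := by
    rcases hp.eq_two_or_odd with h | h
    · omega
    · exact h
  have h3 : p % 3 ≠ 0 := by
    intro h3
    have := (Nat.prime_dvd_prime_iff_eq Nat.prime_three hp).1 (Nat.dvd_of_mod_eq_zero h3)
    omega
  by_contra hcon
  have h31 : p % 3 = 1 := by omega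
  have hcast : (((-3 : ℤ)) : ZMod p) = -3 := by push_cast; ring
  rw [hcast] at ho
  -- cube root of unity
  obtain ⟨c, hc⟩ : 3 ∣ p - 1 := by omega
  have hw3 : ((-3 : ZMod p) ^ c) ^ 3 = 1 := by
    rw [← pow_mul, mul_comm, ← hc, ← ho]
    exact pow_orderOf_eq_one _
  have hw1 : ((-3 : ZMod p) ^ c) ≠ 1 := by
    intro h
    have h4 := orderOf_dvd_of_pow_eq_one h
    rw [ho] at h4
    have := Nat.le_of_dvd (by omega) h4
    omega
  obtain ⟨w, hw⟩ : ∃ w, w = (-3 : ZMod p) ^ c := ⟨_, rfl⟩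
  rw [← hw] at hw3 hw1
  have hw2 : w ^ 2 + w + 1 = 0 := by
    have h6 : (w - 1) * (w ^ 2 + w + 1) = 0 := by linear_combination hw3
    rcases mul_eq_zero.1 h6 with h7 | h7
    · exact absurd (sub_eq_zero.1 h7) hw1
    · exact h7
  have hsq : (2 * w + 1) ^ 2 = (-3 : ZMod p) := by linear_combination 4 * hw2
  have hne : (2 * w + 1) ≠ 0 := by
    intro h
    rw [h] at hsq
    have h8 : (-3 : ZMod p) = 0 := by rw [← hsq]; ring
    rw [h8] at ho
    have h9 : orderOf (0 : ZMod p) = 0 := by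
      rw [orderOf_eq_zero_iff']
      intro n hn h10
      rw [zero_pow (by omega)] at h10
      exact zero_ne_one h10
    omega
  have h10 : (-3 : ZMod p) ^ ((p - 1) / 2) = 1 := by
    rw [← hsq, ← pow_mul]
    have : 2 * ((p - 1) / 2) = p - 1 := by omega
    rw [this]
    exact ZMod.pow_card_sub_one_eq_one hne
  have h11 := orderOf_dvd_of_pow_eq_one h10
  rw [ho] at h11
  have := Nat.le_of_dvd (by omega) h11
  omega

/-- `n` is prime, and `g` has order `n - 1` modulo `n`. -/
def rootCheck (n g : ℕ) (L : List ℕ) : Bool :=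
  and (Nat.beq (Nat.gcd n big) 1) (and (Nat.beq (Nat.mod (Nat.pow L.prod 25) (Nat.sub n 1)) 0)
    (L.all fun l => and (or (and (Nat.ble l 8191) (isPB l)) (and (Nat.ble 2 l)
      (Nat.beq (Nat.gcd l big) 1))) (and (Nat.ble l 51460433)
      (not (Nat.beq (pm g (Nat.div (Nat.sub n 1) l) n) 1)))))

theorem neg_two_root {n : ℕ} (hn : 5 ≤ n) (hn2 : n ≤ 51460433) (L : List ℕ)
    (h : rootCheck n (n - 2) L = true) : IsPrimRoot (-2) n := by
  unfold rootCheck at h
  simp only [Bool.and_eq_true, List.all_eq_true, Bool.or_eq_true, Bool.not_eq_true'] at h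
  obtain ⟨h1, h2, h3⟩ := h
  have hp : n.Prime := prime_of_gcd_big (by omega) (by omega) (Nat.eq_of_beq_eq_true h1)
  have : Fact n.Prime := ⟨hp⟩
  have h2 : (L.prod ^ 25) % (n - 1) = 0 := Nat.eq_of_beq_eq_true h2
  have hcast : (((-2 : ℤ)) : ZMod n) = ((n - 2 : ℕ) : ZMod n) := by
    rw [Nat.cast_sub (by omega)]
    push_cast
    simp
  have hne : ((-2 : ℤ) : ZMod n) ≠ 0 := by
    intro h
    have h3 : ((2 : ℕ) : ZMod n) = 0 := by
      have : (2 : ZMod n) = 0 := by
        push_cast at h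
        linear_combination -h
      exact_mod_cast this
    have := (ZMod.natCast_eq_zero_iff _ _).1 h3
    have := Nat.le_of_dvd (by norm_num) this
    omega
  apply primRoot_of_orderOf hne
  apply orderOf_eq_of_pow_and_pow_div_prime (by omega)
  · exact ZMod.pow_card_sub_one_eq_one hne
  · intro q hq hqd hcon
    have h4 : q ∣ L.prod ^ 25 := dvd_trans hqd (Nat.dvd_of_mod_eq_zero h2)
    have h5 : q ∣ L.prod := hq.dvd_of_dvd_pow h4
    obtain ⟨l, hl, hql⟩ := (Nat.Prime.prime hq).dvd_prod_iff.1 h5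
    obtain ⟨h6, h7, h8⟩ := h3 l hl
    have h7 := Nat.le_of_ble_eq_true h7
    have hlp : l.Prime := by
      rcases h6 with ⟨h6, h9⟩ | ⟨h6, h9⟩
      · exact isPB_prime (by have := Nat.le_of_ble_eq_true h6; omega) h9
      · exact prime_of_gcd_big (Nat.le_of_ble_eq_true h6) (by omega) (Nat.eq_of_beq_eq_true h9)
    have hqe : q = l := (Nat.prime_dvd_prime_iff_eq hq hlp).1 hql
    subst hqe
    have h10 := Nat.ne_of_beq_eq_false h8
    rw [pm_eq] at h10
    apply h10
    rw [hcast] at hcon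
    have h11 : (((n - 2) ^ ((n - 1) / q) : ℕ) : ZMod n) = ((1 : ℕ) : ZMod n) := by
      exact_mod_cast hcon
    have h12 : (n - 2) ^ ((n - 1) / q) % n = 1 % n := (ZMod.natCast_eq_natCast_iff _ _ _).1 h11
    have h13 : 1 % n = 1 := Nat.mod_eq_of_lt (by omega)
    rw [h13] at h12
    exact h12

theorem not_mem_of_root {n : ℕ} (h : IsPrimRoot (-2) n) : n ∉ primesOf (-3) := by
  rintro ⟨-, -, -, h1⟩
  exact h1 (-2) (by norm_num) (by norm_num) h

theorem not_mem_of_pow {n d : ℕ} (hd : 0 < d) (hd' : d < n - 1) (hd2 : d % 2 = 0)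
    (h : pm 3 d n = 1) : n ∉ primesOf (-3) := by
  rintro ⟨hp, -, h1, -⟩
  rw [pm_eq] at h
  refine not_primRoot_of_pow hp hd hd' ?_ h1
  have := neg_pow_even (p := n) 3 d hd2 (by rw [h, Nat.mod_eq_of_lt (by omega)])
  exact_mod_cast this

theorem gap_composite : ∀ j < 204,
    ((j = 14 ∨ j = 27 ∨ j = 34 ∨ j = 50 ∨ j = 58 ∨ j = 94 ∨ j = 110 ∨ j = 113 ∨ j = 132 ∨
      j = 154 ∨ j = 173 ∨ j = 182 ∨ j = 190 ∨ j = 197 ∨ j = 198) ∨
    (Nat.ble 2 (Nat.gcd (51459209 + 6 * j) big) = true ∧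
      Nat.ble (Nat.gcd (51459209 + 6 * j) big) 51459203 = true) ∨
    (Nat.ble 2 (Nat.gcd (51459209 + 6 * j) big90) = true ∧
      Nat.ble (Nat.gcd (51459209 + 6 * j) big90) 51459203 = true) ∨
    ((51459209 + 6 * j) % 139 = 0 ∨ (51459209 + 6 * j) % 101 = 0 ∨ (51459209 + 6 * j) % 181 = 0 ∨
      (51459209 + 6 * j) % 281 = 0 ∨ (51459209 + 6 * j) % 263 = 0)) := by
  decide +kernel

theorem gap {n : ℕ} (h1 : 51459203 < n) (h2 : n < 51460433) : n ∉ primesOf (-3) := by
  intro h
  have h6 := mod6_of_mem h (by omega)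
  obtain ⟨j, hj⟩ : ∃ j, n = 51459209 + 6 * j := ⟨(n - 51459209) / 6, by omega⟩
  have hj2 : j < 204 := by omega
  rcases gap_composite j hj2 with hs | ⟨hc1, hc2⟩ | ⟨hc1, hc2⟩ | hc
  · rcases hs with rfl | rfl | rfl | rfl | rfl | rfl | rfl | rfl | rfl | rfl | rfl | rfl | rfl |
      rfl | rfl
    all_goals norm_num at hj
    · exact not_mem_of_root (neg_two_root (by omega) (by omega) [2, 12864823] (by rw [hj]; decide +kernel)) h
    · exact not_mem_of_pow (d := (51459371 - 1) / 5) (by norm_num) (by rw [hj]; norm_num) (by norm_num) (by rw [hj]; decide +kernel) h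
    · exact not_mem_of_root (neg_two_root (by omega) (by omega) [2, 12864853] (by rw [hj]; decide +kernel)) h
    · exact not_mem_of_root (neg_two_root (by omega) (by omega) [2, 12864877] (by rw [hj]; decide +kernel)) h
    · exact not_mem_of_root (neg_two_root (by omega) (by omega) [2, 23, 559343] (by rw [hj]; decide +kernel)) h
    · exact not_mem_of_root (neg_two_root (by omega) (by omega) [2, 7, 13, 109, 1297] (by rw [hj]; decide +kernel)) h
    · exact not_mem_of_root (neg_two_root (by omega) (by omega) [2, 12864967] (by rw [hj]; decide +kernel)) h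
    · exact not_mem_of_root (neg_two_root (by omega) (by omega) [2, 67, 384029] (by rw [hj]; decide +kernel)) h
    · exact not_mem_of_pow (d := (51460001 - 1) / 5) (by norm_num) (by rw [hj]; norm_num) (by norm_num) (by rw [hj]; decide +kernel) h
    · exact not_mem_of_root (neg_two_root (by omega) (by omega) [2, 19, 677107] (by rw [hj]; decide +kernel)) h
    · exact not_mem_of_root (neg_two_root (by omega) (by omega) [2, 19, 23, 97, 607] (by rw [hj]; decide +kernel)) h
    · exact not_mem_of_root (neg_two_root (by omega) (by omega) [2, 5, 47, 10949] (by rw [hj]; decide +kernel)) h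
    · exact not_mem_of_root (neg_two_root (by omega) (by omega) [2, 12865087] (by rw [hj]; decide +kernel)) h
    · exact not_mem_of_root (neg_two_root (by omega) (by omega) [2, 5, 59, 87221] (by rw [hj]; decide +kernel)) h
    · exact not_mem_of_root (neg_two_root (by omega) (by omega) [2, 13, 989623] (by rw [hj]; decide +kernel)) h
  · have hp : n.Prime := h.1
    have hc1 := Nat.le_of_ble_eq_true hc1
    have hc2 := Nat.le_of_ble_eq_true hc2
    rw [← hj] at hc1 hc2
    rcases (Nat.dvd_prime hp).1 (Nat.gcd_dvd_left n big) with h7 | h7 <;> omega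
  · have hp : n.Prime := h.1
    have hc1 := Nat.le_of_ble_eq_true hc1
    have hc2 := Nat.le_of_ble_eq_true hc2
    rw [← hj] at hc1 hc2
    rcases (Nat.dvd_prime hp).1 (Nat.gcd_dvd_left n big90) with h7 | h7 <;> omega
  · have hp : n.Prime := h.1
    rw [← hj] at hc
    rcases hc with hc | hc | hc | hc | hc <;>
      rcases (Nat.dvd_prime hp).1 (Nat.dvd_of_mod_eq_zero hc) with h7 | h7 <;> omega

end Pool.Agent.H928R3
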