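import Pool.Agent.H928R3.Seg00
import Pool.Agent.H928R3.Seg01
import Pool.Agent.H928R3.Seg02
import Pool.Agent.H928R3.Seg03
import Pool.Agent.H928R3.Seg04
import Pool.Agent.H928R3.Seg05
import Pool.Agent.H928R3.Seg06
import Pool.Agent.H928R3.Seg07
import Pool.Agent.H928R3.Seg08
import Pool.Agent.H928R3.Seg09
import Pool.Agent.H928R3.Seg10
import Pool.Agent.H928R3.Seg11
import Pool.Agent.H928R3.Seg12
import Pool.Agent.H928R3.Seg13
import Pool.Agent.H928R3.Seg14
import Pool.Agent.H928R3.Seg15
import Pool.Agent.H928R3.Seg16
import Pool.Agent.H928R3.Seg17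
import Pool.Agent.H928R3.Seg18
import Pool.Agent.H928R3.Seg19
import Pool.Agent.H928R3.Seg20
import Pool.Agent.H928R3.Seg21
import Pool.Agent.H928R3.Seg22
import Pool.Agent.H928R3.Seg23
import Pool.Agent.H928R3.Seg24
import Pool.Agent.H928R3.Seg25
import Pool.Agent.H928R3.Seg26
import Pool.Agent.H928R3.Seg27
import Pool.Agent.H928R3.Seg28
import Pool.Agent.H928R3.Seg29

/-!
There are at least `744960` primes `p` in `(8219, 50779139]` for which `-3` is the largest negative
primitive root.
-/

namespace Pool.Agent.H928R3

theorem total : Seg 8219 50779139 744960 :=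
  ((((((((((((((((((((((((((((seg00.trans seg01).trans seg02).trans seg03).trans seg04).trans seg05).trans seg06).trans seg07).trans seg08).trans seg09).trans seg10).trans seg11).trans seg12).trans seg13).trans seg14).trans seg15).trans seg16).trans seg17).trans seg18).trans seg19).trans seg20).trans seg21).trans seg22).trans seg23).trans seg24).trans seg25).trans seg26).trans seg27).trans seg28).trans seg29

end Pool.Agent.H928R3
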